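import Pool.Agent.W5h94.WP.Insep
import Pool.Agent.H176.DT.H9
import Pool.Agent.H176.DT.H12

/-!
# Adjoining roots of units whose residues are not `p`-th powers
-/

set_option autoImplicit false
set_option linter.unusedVariables false
set_option linter.unusedSectionVars false

universe u

namespace Pool.Agent.W5h94.WP

open Pool.Agent.W418.LU2 Pool.Agent.H176.DT IsLocalRing Polynomial

/-- Adjoining a root of degree `d` of a unit whose residue is not a `p`-th power if `p` divides `d`.
-/
def RS (d : ℕ) : Prop :=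
  ∀ {E F : Type u} [Field E] [Field F] [Algebra E F] (V : ValuationSubring F) (C : Subring E),
    C ≤ (V.comap (algebraMap E F)).toSubring → (∀ a : E, ∃ b ∈ C, b ≠ 0 ∧ a * b ∈ C) →
    ∀ {s : ℕ} (x : Fin s → E),
      RegP (V.comap (algebraMap E F)).toSubring (lo (V.comap (algebraMap E F)).toSubring C) x →
      (∀ i, (x i)⁻¹ ∉ (V.comap (algebraMap E F)).toSubring) →
    ∀ (ω : F) (u : E), u ≠ 0 → u ∈ lo (V.comap (algebraMap E F)).toSubring C →
      u⁻¹ ∈ lo (V.comap (algebraMap E F)).toSubring C → ω ^ d = algebraMap E F u →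
      (∀ p : ℕ, p.Prime → p ∣ d → V.valuation (p : F) < 1 →
        ∀ c ∈ lo (V.comap (algebraMap E F)).toSubring C,
          V.valuation (algebraMap E F (u - c ^ p)) = 1) →
      (∀ z : F, ∃ g : E[X], aeval ω g = z) →
      RegP V.toSubring (lo V.toSubring (Subring.closure
        ((C.map (algebraMap E F) : Set F) ∪ {ω}))) (fun i => algebraMap E F (x i))

/-- The tame case. -/
theorem rs_tame {E F : Type u} [Field E] [Field F] [Algebra E F] (V : ValuationSubring F)
    (C : Subring E) (hC : C ≤ (V.comap (algebraMap E F)).toSubring)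
    (hCE : ∀ a : E, ∃ b ∈ C, b ≠ 0 ∧ a * b ∈ C) {s : ℕ} (x : Fin s → E)
    (hreg : RegP (V.comap (algebraMap E F)).toSubring
      (lo (V.comap (algebraMap E F)).toSubring C) x)
    (hx : ∀ i, (x i)⁻¹ ∉ (V.comap (algebraMap E F)).toSubring) (ω : F) (u : E) (hu0 : u ≠ 0)
    (hu : u ∈ lo (V.comap (algebraMap E F)).toSubring C)
    (hu' : u⁻¹ ∈ lo (V.comap (algebraMap E F)).toSubring C) {d : ℕ} (hd : 0 < d)
    (hωd : ω ^ d = algebraMap E F u) (hdV : V.valuation (d : F) = 1)
    (hgen : ∀ z : F, ∃ g : E[X], aeval ω g = z) :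
    RegP V.toSubring (lo V.toSubring (Subring.closure
        ((C.map (algebraMap E F) : Set F) ∪ {ω}))) (fun i => algebraMap E F (x i)) := by
  have hωV : V.valuation ω = 1 := by
    have h1 : V.valuation ω ^ d = 1 := by
      rw [← map_pow, hωd, ← comap_one]
      exact (val_one_iff _ _).2 ⟨hu0, hreg.PA hu, hreg.PA hu'⟩
    exact (pow_eq_one_iff.1 h1).resolve_right hd.ne'
  have hder : V.valuation (aeval ω (derivative (X ^ d - Polynomial.C u : E[X]))) = 1 := by
    have h2 : aeval ω (derivative (X ^ d - Polynomial.C u : E[X])) = (d : F) * ω ^ (d - 1) := by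
      rw [derivative_sub, derivative_C, sub_zero, derivative_X_pow, map_mul, map_pow, aeval_X,
        aeval_C, map_natCast]
    rw [h2, map_mul, map_pow, hωV, one_pow, mul_one, hdV]
  exact p_et6 V C hC hCE x hreg hx ω (X ^ d - Polynomial.C u) (monic_X_pow_sub_C u hd.ne')
    (fun i => by
      rw [coeff_sub, coeff_X_pow, coeff_C]
      refine Subring.sub_mem _ ?_ ?_
      · split_ifs
        · exact Subring.one_mem _
        · exact Subring.zero_mem _
      · split_ifs
        · exact hu
        · exact Subring.zero_mem _) (by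
      rw [map_sub, map_pow, aeval_X, aeval_C, hωd, sub_self]) hder hgen

section core

variable {K K1 K' : Type u} [Field K] [Field K1] [Field K'] [Algebra K K1] [Algebra K1 K']
  [Algebra K K']

theorem rs_core {e : ℕ} (hrs : RS.{u} e)
    (hcomm : ∀ z : K, algebraMap K1 K' (algebraMap K K1 z) = algebraMap K K' z)
    (V : ValuationSubring K') (C : Subring K) (hC : C ≤ (V.comap (algebraMap K K')).toSubring)
    (hCK : ∀ a : K, ∃ b ∈ C, b ≠ 0 ∧ a * b ∈ C) {s : ℕ} (x : Fin s → K)
    (hreg : RegP (V.comap (algebraMap K K')).toSubring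
      (lo (V.comap (algebraMap K K')).toSubring C) x)
    (hx : ∀ i, (x i)⁻¹ ∉ (V.comap (algebraMap K K')).toSubring) (ω : K') (u : K) (hu0 : u ≠ 0)
    (hu : u ∈ lo (V.comap (algebraMap K K')).toSubring C)
    (hu' : u⁻¹ ∈ lo (V.comap (algebraMap K K')).toSubring C) {p : ℕ} (hp : p.Prime)
    (hpV : V.valuation (p : K') < 1) (ω₁ : K1) (hω₁ : ω₁ ^ p = algebraMap K K1 u)
    (hωe : ω ^ e = algebraMap K1 K' ω₁)
    (hup : ∀ c ∈ lo (V.comap (algebraMap K K')).toSubring C,
      V.valuation (algebraMap K K' (u - c ^ p)) = 1)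
    (hgen₁ : ∀ z : K1, ∃ g : K[X], aeval ω₁ g = z)
    (hgen : ∀ z : K', ∃ g : K[X], aeval ω g = z) :
    RegP V.toSubring (lo V.toSubring (Subring.closure
        ((C.map (algebraMap K K') : Set K') ∪ {ω}))) (fun i => algebraMap K K' (x i)) := by
  have hV : (V.comap (algebraMap K1 K')).comap (algebraMap K K1) = V.comap (algebraMap K K') := by
    ext z
    change algebraMap K1 K' (algebraMap K K1 z) ∈ V ↔ algebraMap K K' z ∈ V
    rw [hcomm]
  have hω₁0 : ω₁ ≠ 0 := by
    rintro rfl
    rw [zero_pow hp.ne_zero] at hω₁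
    exact hu0 ((map_eq_zero (algebraMap K K1)).1 hω₁.symm)
  have hω₁V : (V.comap (algebraMap K1 K')).valuation ω₁ = 1 := by
    have h1 : (V.comap (algebraMap K1 K')).valuation ω₁ ^ p = 1 := by
      rw [← map_pow, hω₁, comap_one, hcomm, ← comap_one]
      exact (val_one_iff _ _).2 ⟨hu0, hreg.PA hu, hreg.PA hu'⟩
    exact (pow_eq_one_iff.1 h1).resolve_right hp.ne_zero
  rw [← hV] at hC hreg hx hu hu' hup
  obtain ⟨h1, h2⟩ := insep_step (V.comap (algebraMap K1 K')) C x hreg hx hp (by
      rw [comap_lt, map_natCast]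
      exact hpV) ω₁ u hu0 hu hu' hω₁ (fun c hc => by
        rw [comap_one, hcomm]
        exact hup c hc)
  set C1 : Subring K1 := Subring.closure ((C.map (algebraMap K K1) : Set K1) ∪ {ω₁}) with hC1
  have hC1V : C1 ≤ (V.comap (algebraMap K1 K')).toSubring := (le_lo _ _).trans h1.PA
  have hωP : ω₁ ∈ lo (V.comap (algebraMap K1 K')).toSubring C1 :=
    le_lo _ _ (Subring.subset_closure (Or.inr rfl))
  have hωP' : ω₁⁻¹ ∈ lo (V.comap (algebraMap K1 K')).toSubring C1 :=
    inv_mem_lo hC1V hωP hω₁0 ((val_one_iff _ _).1 hω₁V).2.2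
  have hfr : ∀ a : K1, ∃ b ∈ C1, b ≠ 0 ∧ a * b ∈ C1 := by
    intro a
    obtain ⟨g, rfl⟩ := hgen₁ a
    have hωfr : ω₁ ∈ fr C1 := le_fr _ (Subring.subset_closure (Or.inr rfl))
    have h3 : aeval ω₁ g ∈ fr C1 := by
      rw [aeval_eq_sum_range]
      refine sum_mem fun i _ => ?_
      rw [Algebra.smul_def]
      refine mul_mem ?_ (pow_mem hωfr _)
      obtain ⟨b, hb, hb0, hab⟩ := hCK (g.coeff i)
      have h4 : algebraMap K K1 (g.coeff i) = algebraMap K K1 (g.coeff i * b) *
          (algebraMap K K1 b)⁻¹ := by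
        rw [map_mul, mul_assoc, mul_inv_cancel₀ ((_root_.map_ne_zero _).2 hb0), mul_one]
      rw [h4]
      exact mul_mem (le_fr _ (Subring.subset_closure (Or.inl ⟨_, hab, rfl⟩)))
        (inv_mem (le_fr _ (Subring.subset_closure (Or.inl ⟨_, hb, rfl⟩))))
    exact h3
  have h3 := hrs V C1 hC1V hfr (fun i => algebraMap K K1 (x i)) h1 (fun i h => by
    refine hx i ?_
    rw [← map_inv₀] at h
    exact h) ω ω₁ hω₁0 hωP hωP' hωe (fun q hq hqe hqV c hc => by
      have hqp : q = p := by
        by_contra hne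
        have h4 : Nat.Coprime q p := (Nat.coprime_primes hq hp).2 hne
        have h5 := Nat.gcd_eq_gcd_ab q p
        rw [h4.gcd_eq_one] at h5
        have h6 : (1 : K') = (q : K') * (Nat.gcdA q p : K') + (p : K') * (Nat.gcdB q p : K') := by
          have := congrArg (Int.cast : ℤ → K') h5
          push_cast at this
          exact this
        have hz : ∀ n : ℤ, V.valuation (n : K') ≤ 1 := fun n =>
          (V.valuation_le_one_iff _).2 (intCast_mem V n)
        have h7 : V.valuation (1 : K') < 1 := by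
          rw [h6]
          refine lt_of_le_of_lt (V.valuation.map_add _ _) (max_lt ?_ ?_)
          · rw [map_mul]
            exact mul_lt_one_of_nonneg_of_lt_one_left zero_le hqV (hz _)
          · rw [map_mul]
            exact mul_lt_one_of_nonneg_of_lt_one_left zero_le hpV (hz _)
        rw [map_one] at h7
        exact lt_irrefl _ h7
      rw [hqp, ← comap_one]
      exact h2 c hc) (fun z => by
        obtain ⟨g, hg⟩ := hgen z
        refine ⟨g.map (algebraMap K K1), ?_⟩
        rw [← hg, aeval_def, eval₂_map, aeval_def]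
        congr 1
        ext z
        exact hcomm z)
  have h4 : Subring.closure ((C1.map (algebraMap K1 K') : Set K') ∪ {ω}) =
      Subring.closure ((C.map (algebraMap K K') : Set K') ∪ {ω}) := by
    have hωc : ω ∈ Subring.closure ((C.map (algebraMap K K') : Set K') ∪ {ω}) :=
      Subring.subset_closure (Or.inr rfl)
    have h5 : C1 ≤ (Subring.closure ((C.map (algebraMap K K') : Set K') ∪ {ω})).comap
        (algebraMap K1 K') := by
      rw [hC1, Subring.closure_le]
      rintro z (⟨a, ha, rfl⟩ | hz)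
      · change algebraMap K1 K' (algebraMap K K1 a) ∈ Subring.closure
          ((C.map (algebraMap K K') : Set K') ∪ {ω})
        rw [hcomm]
        exact Subring.subset_closure (Or.inl ⟨a, ha, rfl⟩)
      · rw [Set.mem_singleton_iff.1 hz]
        have h6 : algebraMap K1 K' ω₁ ∈
            Subring.closure ((C.map (algebraMap K K') : Set K') ∪ {ω}) := by
          rw [← hωe]
          exact Subring.pow_mem _ hωc _
        exact h6
    apply le_antisymm
    · rw [Subring.closure_le]
      rintro z (⟨a, ha, rfl⟩ | hz)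
      · exact h5 ha
      · exact Subring.subset_closure (Or.inr hz)
    · rw [Subring.closure_le]
      rintro z (⟨a, ha, rfl⟩ | hz)
      · rw [← hcomm]
        exact Subring.subset_closure (Or.inl ⟨_, Subring.subset_closure (Or.inl ⟨a, ha, rfl⟩), rfl⟩)
      · exact Subring.subset_closure (Or.inr hz)
  rw [h4] at h3
  have h5 : (fun i => algebraMap K1 K' (algebraMap K K1 (x i))) =
      fun i => algebraMap K K' (x i) := funext fun i => hcomm _
  rw [h5] at h3
  exact h3

end core

/-- The general case. -/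
theorem rs_all : ∀ d : ℕ, 0 < d → RS.{u} d := by
  intro d
  induction d using Nat.strong_induction_on with
  | _ d ih =>
    intro hd E F _ _ _ V C hC hCE s x hreg hx ω u hu0 hu hu' hωd hup hgen
    by_cases hcase : ∃ p : ℕ, p.Prime ∧ p ∣ d ∧ V.valuation (p : F) < 1
    · obtain ⟨p, hp, ⟨e, rfl⟩, hpV⟩ := hcase
      have he : 0 < e := Nat.pos_of_mul_pos_left hd
      have helt : e < p * e := by
        have := hp.two_le
        nlinarith
      have hroot : eval₂ (algebraMap E F) (ω ^ e) (X ^ p - Polynomial.C u : E[X]) = 0 := by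
        rw [eval₂_sub, eval₂_X_pow, eval₂_C, ← pow_mul, mul_comm e p, hωd, sub_self]
      have hpoly := Ad_poly (algebraMap E F) (ω ^ e) _ (monic_X_pow_sub_C u hp.ne_zero) hroot
      exact @rs_core E (Ad (algebraMap E F) (ω ^ e)) F _ _ _ (toAd (algebraMap E F) (ω ^ e)).toAlgebra
        (Ad (algebraMap E F) (ω ^ e)).subtype.toAlgebra _ e (ih e helt he) (fun z => rfl) V C hC
        hCE s x hreg hx ω u hu0 hu hu' p hp hpV (zAd (algebraMap E F) (ω ^ e))
        (Subtype.ext (by
          change (ω ^ e) ^ p = algebraMap E F u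
          rw [← pow_mul, mul_comm e p, hωd])) rfl (hup p hp (Dvd.intro _ rfl) hpV) hpoly hgen
    · push Not at hcase
      refine rs_tame V C hC hCE x hreg hx ω u hu0 hu hu' hd hωd ?_ hgen
      have hnat : ∀ n : ℕ, V.valuation (n : F) ≤ 1 := fun n =>
        (V.valuation_le_one_iff _).2 (natCast_mem V n)
      have key : ∀ n : ℕ, n ∣ d → n ≠ 0 → V.valuation (n : F) = 1 := by
        intro n
        induction n using induction_on_primes with
        | zero => exact fun _ h => absurd rfl h
        | one => intro _ _; rw [Nat.cast_one, map_one]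
        | prime_mul q a hq ih' =>
          intro hdvd hne
          rw [Nat.cast_mul, map_mul, ih' (dvd_of_mul_left_dvd hdvd) (right_ne_zero_of_mul hne),
            mul_one]
          exact le_antisymm (hnat q) (hcase q hq (dvd_of_mul_right_dvd hdvd))
      exact key d dvd_rfl hd.ne'

end Pool.Agent.W5h94.WP
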